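import Pool.Agent.Lib.MP_305fdd_al.CZ.LX.LxB
import Pool.Agent.Lib.MP_305fdd_al.CZ.E.Ifc
import Pool.Agent.Lib.MP_305fdd_al.F2.W.Main
import Pool.Agent.Lib.MP_305fdd_al.F2.RF.Main
import Pool.Agent.Lib.MP_305fdd_al.F2.ChMain

/-!
# MP_305fdd_al, `C_m * Z`, section LX: Lemma X
-/

set_option autoImplicit false

namespace Pool.Agent.CZLX

open Pool.Agent.F2Ch Pool.Agent.F2W Pool.Agent.F2RF Polynomial

theorem lx_iter_const {p : ℕ} [Fact p.Prime] {k E : Type} [Field k] [CharP k p] [Field E]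
    [Algebra k E] (z : E) (φE : E → E)
    (hφE : ∀ Q : k[X], ∃ Q' : k[X], (∀ i, Q'.coeff i ^ p = Q.coeff (p * i)) ∧
      φE (aeval z Q) = aeval z Q') (N : ℕ) (c : k) :
    ∃ c' : k, c' ^ p ^ N = c ∧ φE^[N] (algebraMap k E c) = algebraMap k E c' := by
  induction N generalizing c with
  | zero => exact ⟨c, by simp, rfl⟩
  | succ N ih =>
    obtain ⟨Q', hQ', hQ''⟩ := hφE (C c)
    have h1 : Q' = C (Q'.coeff 0) := by
      ext i
      by_cases hi : i = 0
      · rw [hi, coeff_C_zero]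
      · have h2 := hQ' i
        rw [coeff_C_ne_zero (mul_ne_zero (Fact.out : p.Prime).ne_zero hi)] at h2
        rw [coeff_C_ne_zero hi]
        exact (pow_eq_zero_iff (Fact.out : p.Prime).ne_zero).mp h2
    have h2 := hQ' 0
    rw [mul_zero, coeff_C_zero] at h2
    obtain ⟨c', hc', hc''⟩ := ih (Q'.coeff 0)
    refine ⟨c', ?_, ?_⟩
    · rw [pow_succ, pow_mul, hc', h2]
    · rw [Function.iterate_succ_apply, ← hc'']
      congr 1
      rw [aeval_C] at hQ''
      rw [hQ'', h1, aeval_C, coeff_C_zero]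

theorem lx_core (p : ℕ) [Fact p.Prime] (k M : Type) [Field k] [CharP k p] [IsAlgClosed k]
    [Field M] [Algebra k M] (n : ℕ) (t : Fin n → M) (hfg : FracGen k t)
    (htd : Algebra.trdeg k M = 1) (φ : M → M) (hφ : IsPinv p φ) (hφ1 : φ 1 = 1)
    (hlog : LogTy p φ) (c1 c2 : M → ℤ) (hc1 : Plc k c1) (hc1c : Compat p φ c1)
    (hc2 : Plc k c2) (hc2c : Compat p φ c2)
    (hall : ∀ c : M → ℤ, Plc k c → Compat p φ c → c = c1 ∨ c = c2) (x : M)
    (ρ : (Fin 1 → Fin p) → M → M) (hρ : IsPB p (monY (p := p) fun _ : Fin 1 => x) ρ) (z : k)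
    (hz : z ≠ 0) (hz2 : z ^ 2 ≠ 1) (hx1 : Gt c1 0 (x - algebraMap k M z))
    (hx2 : Gt c2 0 (x - algebraMap k M z⁻¹)) (N : ℕ)
    (hN : φ^[N] (x + x⁻¹ - algebraMap k M z - algebraMap k M z⁻¹) = 0) : False := by
  haveI : PerfectRing k p := inferInstance
  haveI : CharP M p := charP_of_injective_algebraMap (algebraMap k M).injective p
  have hzi : z⁻¹ ≠ 0 := inv_ne_zero hz
  have hzz : z - z⁻¹ ≠ 0 := by
    intro h
    apply hz2
    have h1 : z = z⁻¹ := sub_eq_zero.mp h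
    rw [sq]
    nth_rewrite 2 [h1]
    exact mul_inv_cancel₀ hz
  obtain ⟨hx0, hx1v, hx1i⟩ := lx_res hc1.isv hc1.triv hz hx1
  obtain ⟨-, hx2v, hx2i⟩ := lx_res hc2.isv hc2.triv hzi hx2
  rw [inv_inv] at hx2i
  obtain ⟨g, hg, hgf⟩ := Pool.Agent.F2RF.w4 p M φ hlog 1 (fun _ => x) ρ ⟨fun _ => hx0, hρ⟩
  obtain ⟨hxt, hfin, hsep⟩ := t_L7 p k M n t hfg htd x ρ hρ
  let E := IntermediateField.adjoin k {x}
  have hxE : x ∈ E := IntermediateField.mem_adjoin_simple_self k x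
  let xE : E := ⟨x, hxE⟩
  have hxEx : algebraMap E M xE = x := rfl
  have hxE0 : xE ≠ 0 := by
    intro h
    exact hx0 (by rw [← hxEx, h, map_zero])
  have hxEt : Transcendental k xE := by
    intro h
    exact hxt (by rw [← hxEx]; exact h.algebraMap)
  have hgen : ∀ f : E, ∃ a b : k[X], aeval xE b ≠ 0 ∧ f * aeval xE b = aeval xE a := by
    intro f
    obtain ⟨a, b, hab⟩ := (IntermediateField.mem_adjoin_simple_iff k (f : M)).mp f.2
    have hcoe : ∀ Q : k[X], ((aeval xE Q : E) : M) = aeval x Q := fun Q => by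
      rw [← hxEx]
      exact (aeval_algebraMap_apply M xE Q).symm
    by_cases hb : aeval x b = 0
    · refine ⟨0, 1, by simp, ?_⟩
      rw [hb, div_zero] at hab
      have : f = 0 := Subtype.ext hab
      rw [this]; simp
    · refine ⟨a, b, fun h => hb (by rw [← hcoe, h]; rfl), ?_⟩
      apply Subtype.ext
      change (f : M) * ((aeval xE b : E) : M) = ((aeval xE a : E) : M)
      rw [hcoe, hcoe, hab, div_mul_cancel₀ _ hb]
  haveI : CharP E p := charP_of_injective_algebraMap (algebraMap k E).injective p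
  obtain ⟨ρE, hρE, hρQ⟩ := t_L6 p k E xE hxEt hgen
  have hφE0 : IsPinv p (ρE j0) := lx_pinv hρE j0
  let T : M →ₗ[E] E := (Algebra.trace E M) ∘ₗ LinearMap.mulLeft E g
  have hTdef : ∀ m, T m = Algebra.trace E M (g * m) := fun m => rfl
  have hT : T ≠ 0 := by
    intro h
    refine Algebra.trace_ne_zero E M (LinearMap.ext fun m => ?_)
    have := hTdef (g⁻¹ * m)
    rw [h, ← mul_assoc, mul_inv_cancel₀ hg, one_mul] at this
    exact this.symm
  have hcomm : ∀ m, ρE j0 (T m) = T (φ m) := by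
    intro m
    rw [hTdef, hTdef, t_L8 p E M xE ρE ρ hρE hρ, hgf, ← mul_assoc, mul_inv_cancel₀ hg, one_mul]
  have h1 : ∀ Q : k[X], ∃ Q' : k[X], (∀ i, Q'.coeff i ^ p = Q.coeff (p * i)) ∧
      ρE j0 (aeval xE Q) = aeval xE Q' := fun Q => by
    obtain ⟨Q', hQ', h1, h2⟩ := hρQ Q
    exact ⟨Q', hQ', h1⟩
  have h2 : ∀ Q : k[X], ∃ Q' : k[X], (∀ i, Q'.coeff i ^ p = Q.coeff (p * i)) ∧
      ρE j0 (aeval xE⁻¹ Q) = aeval xE⁻¹ Q' := fun Q => by
    obtain ⟨Q', hQ', h1, h2⟩ := hρQ Q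
    exact ⟨Q', hQ', h2⟩
  -- positive at both places
  have hboth : ∀ b : M, Gt c1 0 b → Gt c2 0 b → ∀ v : M → ℤ, IsV v → Triv k v →
      (∃ u, u ≠ 0 ∧ v u = 1) → Compat p φ v → Gt v 0 b := by
    intro b hb1 hb2 v hv ht hu hc
    rcases hall v ⟨hv, ht, hu⟩ hc with rfl | rfl
    · exact hb1
    · exact hb2
  have hone : ((aeval x : k[X] →ₐ[k] M) : k[X] →+* M).IsIntegralElem 1 := by
    have := l11_isInt_const k M x (1 : k)
    rwa [map_one] at this
  -- the polynomial `q = (X - z) (X - z⁻¹)`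
  have hmain : ∀ b : M, ((aeval x : k[X] →ₐ[k] M) : k[X] →+* M).IsIntegralElem b →
      Gt c1 0 b → Gt c2 0 b → ∃ Q : k[X], T b = aeval xE (X * Q) := by
    intro b hb hb1 hb2
    have := lx_mem p k E M t_L3 t_L5 xE hxEt hgen T hT φ hφ hφ1 (ρE j0) hcomm h1 b hb
      (hboth b hb1 hb2) 1 hone
    rwa [mul_one] at this
  have hq1 : Gt c1 0 (aeval x ((X - C z) * (X - C z⁻¹) : k[X])) := by
    rw [map_mul, mul_comm, map_sub, map_sub, aeval_X, aeval_C, aeval_C]
    refine l11_gt_mul hc1.isv ?_ hx1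
    rw [sub_eq_add_neg, ← map_neg]
    exact l11_ge_add hc1.isv (Or.inr hx1v.ge) (lx_ge_const hc1.triv _)
  have hq2 : Gt c2 0 (aeval x ((X - C z) * (X - C z⁻¹) : k[X])) := by
    rw [map_mul, map_sub, map_sub, aeval_X, aeval_C, aeval_C]
    refine l11_gt_mul hc2.isv ?_ hx2
    rw [sub_eq_add_neg, ← map_neg]
    exact l11_ge_add hc2.isv (Or.inr hx2v.ge) (lx_ge_const hc2.triv _)
  have hq1' : Gt c1 0 (aeval x⁻¹ ((X - C z) * (X - C z⁻¹) : k[X])) := by
    rw [map_mul, map_sub, map_sub, aeval_X, aeval_C, aeval_C]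
    refine l11_gt_mul hc1.isv ?_ hx1i
    rw [sub_eq_add_neg, ← map_neg]
    exact l11_ge_add hc1.isv (Or.inr (by rw [l11_val_inv hc1.isv hx0, hx1v, neg_zero]))
      (lx_ge_const hc1.triv _)
  have hq2' : Gt c2 0 (aeval x⁻¹ ((X - C z) * (X - C z⁻¹) : k[X])) := by
    rw [map_mul, mul_comm, map_sub, map_sub, aeval_X, aeval_C, aeval_C]
    refine l11_gt_mul hc2.isv ?_ hx2i
    rw [sub_eq_add_neg, ← map_neg]
    exact l11_ge_add hc2.isv (Or.inr (by rw [l11_val_inv hc2.isv hx0, hx2v, neg_zero]))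
      (lx_ge_const hc2.triv _)
  have hcoe : ∀ Q : k[X], algebraMap E M (aeval xE Q) = aeval x Q := fun Q => by
    rw [← hxEx]
    exact (aeval_algebraMap_apply M xE Q).symm
  have hcoe' : ∀ Q : k[X], algebraMap E M (aeval xE⁻¹ Q) = aeval x⁻¹ Q := fun Q => by
    rw [← hxEx, ← map_inv₀]
    exact (aeval_algebraMap_apply M xE⁻¹ Q).symm
  have hTE : ∀ e : E, T (algebraMap E M e) = e * T 1 := fun e => by
    rw [← smul_eq_mul, ← map_smul, Algebra.smul_def, mul_one]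
  have hintp : ∀ Q : k[X], ((aeval x : k[X] →ₐ[k] M) : k[X] →+* M).IsIntegralElem (aeval x Q) :=
    fun Q => RingHom.isIntegralElem_map _
  obtain ⟨Q1, hQ1⟩ := hmain _ (hintp _) hq1 hq2
  rw [← hcoe, hTE] at hQ1
  obtain ⟨Q2, hQ2⟩ : ∃ Q : k[X], T (aeval x⁻¹ ((X - C z) * (X - C z⁻¹) : k[X])) =
      aeval xE⁻¹ (X * Q) := by
    have hxt' : Transcendental k xE⁻¹ := by
      intro h
      have := h.inv
      rw [inv_inv] at this
      exact hxEt this
    have hxi : algebraMap E M xE⁻¹ = x⁻¹ := by rw [map_inv₀, hxEx]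
    have := lx_mem p k E M t_L3 t_L5 xE⁻¹ hxt' (l11_gen_inv xE hxE0 hgen) T hT φ hφ hφ1 (ρE j0)
      hcomm h2 (aeval x⁻¹ ((X - C z) * (X - C z⁻¹) : k[X])) (by
        rw [hxi]
        exact RingHom.isIntegralElem_map _) (hboth _ hq1' hq2') 1 (by
        rw [hxi]
        have := l11_isInt_const k M x⁻¹ (1 : k)
        rwa [map_one] at this)
    rwa [mul_one] at this
  rw [← hcoe', hTE] at hQ2
  have hqq : aeval xE⁻¹ ((X - C z) * (X - C z⁻¹) : k[X]) =
      xE⁻¹ * xE⁻¹ * aeval xE ((X - C z) * (X - C z⁻¹) : k[X]) := by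
    have hzE : algebraMap k E z ≠ 0 := fun h => hz ((map_eq_zero _).mp h)
    rw [map_mul, map_mul, map_sub, map_sub, map_sub, map_sub, aeval_X, aeval_X, aeval_C, aeval_C,
      aeval_C, aeval_C, map_inv₀]
    field_simp
    ring
  rw [hqq] at hQ2
  have hQ12 : aeval xE Q1 = aeval xE⁻¹ Q2 := by
    rw [map_mul (aeval xE) X Q1, aeval_X] at hQ1
    rw [map_mul (aeval xE⁻¹) X Q2, aeval_X] at hQ2
    rw [mul_assoc, mul_assoc, hQ1, ← mul_assoc xE⁻¹ xE, inv_mul_cancel₀ hxE0, one_mul] at hQ2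
    exact mul_left_cancel₀ (inv_ne_zero hxE0) hQ2
  obtain ⟨c, hc⟩ := lx_const xE hxEt Q1 Q2 hQ12
  -- `T h = c`
  have hqx : aeval xE ((X - C z) * (X - C z⁻¹) : k[X]) =
      xE * (xE + xE⁻¹ - algebraMap k E z - algebraMap k E z⁻¹) := by
    have hzE : algebraMap k E z ≠ 0 := fun h => hz ((map_eq_zero _).mp h)
    rw [map_mul, map_sub, map_sub, aeval_X, aeval_C, aeval_C, map_inv₀]
    field_simp
    ring
  have hTh : T (x + x⁻¹ - algebraMap k M z - algebraMap k M z⁻¹) = algebraMap k E c := by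
    have h3 : x + x⁻¹ - algebraMap k M z - algebraMap k M z⁻¹ =
        algebraMap E M (xE + xE⁻¹ - algebraMap k E z - algebraMap k E z⁻¹) := by
      rw [map_sub (algebraMap E M), map_sub (algebraMap E M), map_add (algebraMap E M),
        map_inv₀ (algebraMap E M) xE, hxEx, ← IsScalarTower.algebraMap_apply,
        ← IsScalarTower.algebraMap_apply]
    rw [h3, hTE]
    rw [hqx, hc, map_mul (aeval xE) X, aeval_X, aeval_C, mul_assoc] at hQ1
    exact mul_left_cancel₀ hxE0 hQ1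
  have hiter : ∀ (N : ℕ) (m : M), (ρE j0)^[N] (T m) = T (φ^[N] m) := by
    intro N
    induction N with
    | zero => intro m; rfl
    | succ N ih =>
      intro m
      rw [Function.iterate_succ_apply, hcomm, ih, ← Function.iterate_succ_apply]
  have hc0 : c = 0 := by
    have h3 := hiter N (x + x⁻¹ - algebraMap k M z - algebraMap k M z⁻¹)
    rw [hN, map_zero, hTh] at h3
    obtain ⟨c', hc', hc''⟩ := lx_iter_const xE (ρE j0) h1 N c
    rw [hc''] at h3
    have h4 : c' = 0 := (map_eq_zero _).mp h3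
    rw [← hc', h4, zero_pow (pow_ne_zero _ (Fact.out : p.Prime).ne_zero)]
  have hT1 : T 1 = 0 := by
    rw [hc, hc0, C_0, mul_zero, map_zero] at hQ1
    refine (mul_eq_zero.mp hQ1).resolve_left fun h => hxEt ⟨_, ?_, h⟩
    exact mul_ne_zero (X_sub_C_ne_zero _) (X_sub_C_ne_zero _)
  refine lx_end p k E M t_L2 t_L4 t_L5 xE hxEt hgen T hT φ hφ hφ1 (ρE j0) hφE0 hcomm h1 c1
    hc1.isv hc1.triv hc1.unif hc1c z hz hx1 ?_
  intro a ha
  have hge1 : Ge c1 0 a := l11_ge_int _ hc1.isv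
    (fun r => l11_ge_poly hc1.isv hc1.triv (Or.inr hx1v.ge) r) ha
  have hge2 : Ge c2 0 a := l11_ge_int _ hc2.isv
    (fun r => l11_ge_poly hc2.isv hc2.triv (Or.inr hx2v.ge) r) ha
  obtain ⟨α, hα⟩ := t_L10 k M htd c1 hc1.isv hc1.triv hc1.unif a hge1
  obtain ⟨β, hβ⟩ := t_L10 k M htd c2 hc2.isv hc2.triv hc2.unif a hge2
  obtain ⟨s0, s1, hs1, hs2⟩ : ∃ s0 s1 : k, s0 + s1 * z = α ∧ s0 + s1 * z⁻¹ = β := by
    refine ⟨α - (α - β) / (z - z⁻¹) * z, (α - β) / (z - z⁻¹), by ring, ?_⟩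
    have : (α - β) / (z - z⁻¹) * (z - z⁻¹) = α - β := div_mul_cancel₀ _ hzz
    linear_combination -this
  have hb : a - aeval x (C s0 + C s1 * X : k[X]) =
      a - (algebraMap k M s0 + algebraMap k M s1 * x) := by
    rw [map_add, map_mul, aeval_X, aeval_C, aeval_C]
  have hb1 : Gt c1 0 (a - aeval x (C s0 + C s1 * X : k[X])) := by
    have h3 : a - aeval x (C s0 + C s1 * X : k[X]) = (a - algebraMap k M α) -
        algebraMap k M s1 * (x - algebraMap k M z) := by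
      rw [hb, ← hs1, map_add, map_mul]
      ring
    rw [h3]
    exact lx_gt_sub hc1.isv hα (l11_gt_mul hc1.isv (lx_ge_const hc1.triv _) hx1)
  have hb2 : Gt c2 0 (a - aeval x (C s0 + C s1 * X : k[X])) := by
    have h3 : a - aeval x (C s0 + C s1 * X : k[X]) = (a - algebraMap k M β) -
        algebraMap k M s1 * (x - algebraMap k M z⁻¹) := by
      rw [hb, ← hs2, map_add, map_mul]
      ring
    rw [h3]
    exact lx_gt_sub hc2.isv hβ (l11_gt_mul hc2.isv (lx_ge_const hc2.triv _) hx2)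
  obtain ⟨Q, hQ⟩ := hmain _ (RingHom.IsIntegralElem.sub _ ha (hintp _)) hb1 hb2
  refine ⟨Q, ?_⟩
  rw [← hQ, map_sub, ← hcoe, hTE, hT1, mul_zero, sub_zero]

theorem LX : Pool.Agent.CZ.I_LX := by
  intro p _ k M _ _ _ _ _ φ hφ hφ1 hlog htd hfg hpb c1 c2 hc1 hc1c hc2 hc2c hall ψ z hψ hz hz2
    hψ1 hψ2 hN
  obtain ⟨n, t, hfg⟩ := hfg
  obtain ⟨b, ρb, hb⟩ := hpb
  obtain ⟨N, hN⟩ := hN
  haveI : CharP M p := charP_of_injective_algebraMap (algebraMap k M).injective p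
  have hp0 : p ≠ 0 := (Fact.out : p.Prime).ne_zero
  have hp1 : 1 < p := (Fact.out : p.Prime).one_lt
  obtain ⟨y, ρy, hy0, hy⟩ := Pool.Agent.F2Ch.t_C5 p M 1 b ρb hb
  have hzi : z⁻¹ ≠ 0 := inv_ne_zero hz
  -- `ψ` is not constant
  have hψz : ψ - algebraMap k M z ≠ 0 := by
    intro h
    rw [sub_eq_zero] at h
    rw [h, ← map_sub] at hψ2
    refine lx_not_gt_const hc2.triv ?_ hψ2
    intro h3
    apply hz2
    have h4 : z = z⁻¹ := sub_eq_zero.mp h3
    rw [sq]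
    nth_rewrite 2 [h4]
    exact mul_inv_cancel₀ hz
  -- roots of constants
  have hroot : ∀ (j : ℕ) (c : k), ∃ c' : k, c' ^ p ^ j = c := fun j c =>
    IsAlgClosed.exists_pow_nat_eq c (pow_pos (Fact.out : p.Prime).pos j)
  have hsubp : ∀ (j : ℕ) (a b : M), (a - b) ^ p ^ j = a ^ p ^ j - b ^ p ^ j := fun j a b =>
    sub_pow_char_pow a b j
  -- `ψ = x ^ (p ^ j)`, `x` not a `p`-th power
  obtain ⟨j, x, hx, hxp⟩ : ∃ (j : ℕ) (x : M), x ^ p ^ j = ψ ∧ ∀ a, a ^ p ≠ x := by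
    by_contra hno
    push Not at hno
    have h3 : ∀ j : ℕ, ∃ x : M, x ^ p ^ j = ψ := by
      intro j
      induction j with
      | zero => exact ⟨ψ, by simp⟩
      | succ j ih =>
        obtain ⟨x, hx⟩ := ih
        obtain ⟨a, ha⟩ := hno j x hx
        exact ⟨a, by rw [pow_succ, mul_comm, pow_mul, ha, hx]⟩
    obtain ⟨x, hx⟩ := h3 (c1 (ψ - algebraMap k M z)).toNat
    obtain ⟨z', hz'⟩ := hroot (c1 (ψ - algebraMap k M z)).toNat z
    have h4 := hψ1.resolve_left hψz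
    have h5 : (x - algebraMap k M z') ^ p ^ (c1 (ψ - algebraMap k M z)).toNat =
        ψ - algebraMap k M z := by
      rw [hsubp, hx, ← map_pow, hz']
    have h6 : x - algebraMap k M z' ≠ 0 := by
      intro h
      rw [h, zero_pow (pow_ne_zero _ hp0)] at h5
      exact hψz h5.symm
    have h7 := l11_val_pow hc1.isv h6 (p ^ (c1 (ψ - algebraMap k M z)).toNat)
    rw [h5] at h7
    generalize c1 (ψ - algebraMap k M z) = e at h4 h7
    have h8 : e.toNat < p ^ e.toNat := Nat.lt_pow_self hp1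
    have h9 : (e.toNat : ℤ) = e := Int.toNat_of_nonneg h4.le
    have h10 : 0 < c1 (x - algebraMap k M z') := by
      by_contra h
      push Not at h
      have : ((p ^ e.toNat : ℕ) : ℤ) * c1 (x - algebraMap k M z') ≤ 0 :=
        mul_nonpos_of_nonneg_of_nonpos (by positivity) h
      omega
    have h11 : ((p ^ e.toNat : ℕ) : ℤ) ≤ ((p ^ e.toNat : ℕ) : ℤ) * c1 (x - algebraMap k M z') := by
      nlinarith [show (0 : ℤ) ≤ ((p ^ e.toNat : ℕ) : ℤ) by positivity]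
    omega
  obtain ⟨z1, hz1⟩ := hroot j z
  have hz10 : z1 ≠ 0 := by
    rintro rfl
    rw [zero_pow (pow_ne_zero _ hp0)] at hz1
    exact hz hz1.symm
  have hz12 : z1 ^ 2 ≠ 1 := by
    intro h
    apply hz2
    rw [← hz1, ← pow_mul, mul_comm, pow_mul, h, one_pow]
  -- positivity passes to the root
  have hpos : ∀ (c : M → ℤ), Plc k c → ∀ (a : M), Gt c 0 (a ^ p ^ j) → Gt c 0 a := by
    intro c hc a ha
    by_cases h0 : a = 0
    · exact Or.inl h0
    refine Or.inr ?_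
    have h3 := ha.resolve_left (pow_ne_zero _ h0)
    rw [l11_val_pow hc.isv h0] at h3
    by_contra h
    push Not at h
    have : ((p ^ j : ℕ) : ℤ) * c a ≤ 0 := mul_nonpos_of_nonneg_of_nonpos (by positivity) h
    omega
  have hx1 : Gt c1 0 (x - algebraMap k M z1) := by
    apply hpos c1 hc1
    rw [hsubp, hx, ← map_pow, hz1]
    exact hψ1
  have hx2 : Gt c2 0 (x - algebraMap k M z1⁻¹) := by
    apply hpos c2 hc2
    rw [hsubp, hx, ← map_pow, inv_pow, hz1]
    exact hψ2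
  -- `φ^[N] h = 0`
  have hφ0 : φ 0 = 0 := by
    have := hφ.add 0 0
    rw [add_zero] at this
    simpa using this
  have hφp : ∀ (j : ℕ) (a : M), φ^[j] (a ^ p ^ j) = a := by
    intro j
    induction j with
    | zero => intro a; simp
    | succ j ih =>
      intro a
      have h3 : φ (a ^ p ^ (j + 1)) = a ^ p ^ j := by
        have h4 : a ^ p ^ (j + 1) = (a ^ p ^ j) ^ p * 1 := by
          rw [mul_one, ← pow_mul, pow_succ]
        rw [h4, hφ.pow_mul, hφ1, mul_one]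
      rw [Function.iterate_succ_apply, h3, ih]
  have hh : (x + x⁻¹ - algebraMap k M z1 - algebraMap k M z1⁻¹) ^ p ^ j =
      ψ + ψ⁻¹ - algebraMap k M z - algebraMap k M z⁻¹ := by
    rw [hsubp, hsubp, add_pow_char_pow, inv_pow, hx, ← map_pow, ← map_pow, inv_pow, hz1]
  have hN' : φ^[N] (x + x⁻¹ - algebraMap k M z1 - algebraMap k M z1⁻¹) = 0 := by
    have h3 : φ^[N] (φ^[j] ((x + x⁻¹ - algebraMap k M z1 - algebraMap k M z1⁻¹) ^ p ^ j)) = 0 := by
      rw [← Function.iterate_add_apply, add_comm, Function.iterate_add_apply, hh, hN]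
      exact Function.iterate_fixed hφ0 j
    rwa [hφp] at h3
  obtain ⟨t', π', hMB, ht'⟩ := Pool.Agent.F2RF.w8 p M 0 y ρy ⟨hy0, hy⟩ x hxp
  have ht'x : t' = fun _ => x := by
    funext i
    rw [← ht']
    congr 1
    exact Fin.ext (by omega)
  subst ht'x
  exact lx_core p k M n t hfg htd φ hφ hφ1 hlog c1 c2 hc1 hc1c hc2 hc2c hall x π' hMB.pb z1 hz10
    hz12 hx1 hx2 N hN'

end Pool.Agent.CZLX
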