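import Pool.Agent.Lib.MP_305fdd_al.F2.W.L11
import Pool.Agent.Lib.MP_305fdd_al.F2.RF.Defs

/-!
# MP_305fdd_al, `C_m * Z`, section LX (Lemma X): auxiliary lemmas
-/

set_option autoImplicit false

namespace Pool.Agent.CZLX

open Pool.Agent.F2Ch Pool.Agent.F2W Pool.Agent.F2RF Polynomial

/-- the coordinates are additive and `p⁻¹`-linear -/
theorem lx_pinv {p : ℕ} [Fact p.Prime] {K ι : Type} [Field K] [CharP K p] [Fintype ι] {w : ι → K}
    {π : ι → K → K} (h : IsPB p w π) (i : ι) : IsPinv p (π i) := by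
  constructor
  · intro x y
    have h1 : x + y = ∑ j, (π j x + π j y) ^ p * w j := by
      conv_lhs => rw [← h.repr x, ← h.repr y, ← Finset.sum_add_distrib]
      refine Finset.sum_congr rfl fun j _ => ?_
      rw [add_pow_char, add_mul]
    conv_lhs => rw [h1]
    exact h.uniq _ i
  · intro a b
    have h1 : a ^ p * b = ∑ j, (a * π j b) ^ p * w j := by
      conv_lhs => rw [← h.repr b, Finset.mul_sum]
      refine Finset.sum_congr rfl fun j _ => ?_
      rw [mul_pow, mul_assoc]
    conv_lhs => rw [h1]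
    exact h.uniq _ i

section vals

variable {k M : Type} [Field k] [Field M] [Algebra k M] {v : M → ℤ}

theorem lx_gt_ge {x : M} (h : Gt v 0 x) : Ge v 0 x := h.imp_right le_of_lt

theorem lx_gt_neg (hv : IsV v) {x : M} (h : Gt v 0 x) : Gt v 0 (-x) := by
  rcases h with h | h
  · exact Or.inl (by rw [h, neg_zero])
  · exact Or.inr (by rw [l11_val_neg hv]; exact h)

theorem lx_gt_sub (hv : IsV v) {x y : M} (hx : Gt v 0 x) (hy : Gt v 0 y) : Gt v 0 (x - y) := by
  rw [sub_eq_add_neg]
  exact l11_gt_add hv hx (lx_gt_neg hv hy)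

theorem lx_ge_const (ht : Triv k v) (c : k) : Ge v 0 (algebraMap k M c) := Or.inr (ht c).ge

theorem lx_not_gt_const (ht : Triv k v) {c : k} (hc : c ≠ 0) : ¬ Gt v 0 (algebraMap k M c) := by
  rintro (h | h)
  · exact hc ((map_eq_zero _).mp h)
  · rw [ht c] at h
    exact lt_irrefl _ h

/-- an element with nonzero constant residue -/
theorem lx_res (hv : IsV v) (ht : Triv k v) {c : k} (hc : c ≠ 0) {x : M}
    (h : Gt v 0 (x - algebraMap k M c)) :
    x ≠ 0 ∧ v x = 0 ∧ Gt v 0 (x⁻¹ - algebraMap k M c⁻¹) := by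
  have hc' : algebraMap k M c ≠ 0 := fun h0 => hc ((map_eq_zero _).mp h0)
  have hx : x ≠ 0 := by
    rintro rfl
    rw [zero_sub] at h
    have h1 := lx_gt_neg hv h
    rw [neg_neg] at h1
    exact lx_not_gt_const ht hc h1
  have hge : Ge v 0 x := by
    have h1 : Ge v 0 ((x - algebraMap k M c) + algebraMap k M c) :=
      l11_ge_add hv (lx_gt_ge h) (lx_ge_const ht c)
    rwa [sub_add_cancel] at h1
  have hvx : v x = 0 := by
    have h1 := hge.resolve_left hx
    by_contra h2
    have h3 : Gt v 0 x := Or.inr (lt_of_le_of_ne h1 (Ne.symm h2))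
    have h4 := lx_gt_sub hv h3 h
    rw [sub_sub_cancel] at h4
    exact lx_not_gt_const ht hc h4
  refine ⟨hx, hvx, ?_⟩
  have h1 : x⁻¹ - algebraMap k M c⁻¹ =
      (x⁻¹ * algebraMap k M c⁻¹) * (-(x - algebraMap k M c)) := by
    rw [map_inv₀]
    field_simp
    ring
  rw [h1]
  refine l11_gt_mul hv (l11_ge_mul hv (Or.inr ?_) (lx_ge_const ht _)) (lx_gt_neg hv h)
  rw [l11_val_inv hv hx, hvx, neg_zero]

end vals

/-- the coefficient of a polynomial in `x` which is also a polynomial in `x⁻¹` -/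
theorem lx_const {k E : Type} [Field k] [Field E] [Algebra k E] (x : E) (hx : Transcendental k x)
    (P Q : k[X]) (h : aeval x P = aeval x⁻¹ Q) : ∃ c : k, P = C c := by
  refine ⟨Q.coeff 0, ?_⟩
  have h1 : aeval x (P - C (Q.coeff 0)) = aeval x⁻¹ (X * Q.divX) := by
    have h2 : X * Q.divX = Q - C (Q.coeff 0) := by
      rw [eq_sub_iff_add_eq, mul_comm]
      exact Q.divX_mul_X_add
    rw [h2, map_sub, map_sub, h, aeval_C, aeval_C]
  have h3 := l11_zero x hx _ _ h1
  by_contra hne
  exact hx ⟨P - C (Q.coeff 0), sub_ne_zero.mpr hne, h3⟩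

/-- the polynomial `X * (X - c) ^ (p - 1)`: its `p`-coefficients -/
theorem lx_poly (p : ℕ) [hp : Fact p.Prime] {k : Type} [Field k] (c : k) (Q' : k[X])
    (h : ∀ i, Q'.coeff i ^ p = (X * (X - C c) ^ (p - 1)).coeff (p * i)) (hinj : ∀ a b : k, a ^ p = b ^ p → a = b) :
    Q' = X := by
  have hp1 : 1 ≤ p := hp.out.one_lt.le
  have hp2 : 2 ≤ p := hp.out.two_le
  ext i
  apply hinj
  rw [h i]
  have hdeg : ((X - C c) ^ (p - 1)).natDegree = p - 1 := by
    rw [natDegree_pow, natDegree_X_sub_C, mul_one]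
  have hmon : ((X - C c) ^ (p - 1)).Monic := (monic_X_sub_C c).pow _
  rcases Nat.lt_or_ge i 2 with hi | hi
  · interval_cases i
    · rw [mul_zero, mul_coeff_zero, coeff_X_zero, zero_mul, zero_pow hp.out.ne_zero]
    · rw [mul_one, coeff_X_one, one_pow]
      obtain ⟨q, hq⟩ : ∃ q, p = q + 1 := ⟨p - 1, by omega⟩
      rw [hq, coeff_X_mul, ← hq]
      have h2 := hmon.coeff_natDegree
      rw [hdeg] at h2
      have h3 : q = p - 1 := by omega
      rw [h3]
      exact h2
  · have h1 : (X * (X - C c) ^ (p - 1)).natDegree ≤ p := by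
      refine natDegree_mul_le.trans ?_
      rw [natDegree_X, hdeg]
      omega
    have h2 : p < p * i := by nlinarith
    rw [coeff_eq_zero_of_natDegree_lt (lt_of_le_of_lt h1 h2), coeff_X_of_ne_one (by omega),
      zero_pow hp.out.ne_zero]

end Pool.Agent.CZLX
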