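import Pool.Agent.Lib.MP_305fdd_al.CZ.LX.LxA

/-!
# MP_305fdd_al, `C_m * Z`, section LX (Lemma X): the two arguments with the module `J`
-/

set_option autoImplicit false

namespace Pool.Agent.CZLX

open Pool.Agent.F2Ch Pool.Agent.F2W Pool.Agent.F2RF Polynomial

section

variable (p : ℕ) [Fact p.Prime] (k E M : Type) [Field k] [CharP k p] [Field E] [Algebra k E]
  [Field M] [Algebra E M] [Algebra k M] [IsScalarTower k E M] [FiniteDimensional E M]
  [Algebra.IsSeparable E M]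

/-- an integral element which is positive at all compatible places is in `J` -/
theorem lx_mem (hL3 : S_L3) (hL5 : S_L5) (z : E) (hz : Transcendental k z)
    (hgen : ∀ f : E, ∃ a b : k[X], aeval z b ≠ 0 ∧ f * aeval z b = aeval z a)
    (T : M →ₗ[E] E) (hT : T ≠ 0) (φ : M → M) (hφ : IsPinv p φ) (hφ1 : φ 1 = 1) (φE : E → E)
    (hcomm : ∀ y, φE (T y) = T (φ y))
    (hφE : ∀ Q : k[X], ∃ Q' : k[X], (∀ i, Q'.coeff i ^ p = Q.coeff (p * i)) ∧
      φE (aeval z Q) = aeval z Q')
    (b : M) (hb : ((aeval (algebraMap E M z) : k[X] →ₐ[k] M) : k[X] →+* M).IsIntegralElem b)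
    (hpos : ∀ v : M → ℤ, IsV v → Triv k v → (∃ u, u ≠ 0 ∧ v u = 1) → Compat p φ v → Gt v 0 b)
    (a : M) (ha : ((aeval (algebraMap E M z) : k[X] →ₐ[k] M) : k[X] →+* M).IsIntegralElem a) :
    ∃ Q : k[X], T (b * a) = aeval z (X * Q) := by
  obtain ⟨A, iA1, iA2, iA3, iA4, J, hA, hJ0, hJfg, hJφ, hJ⟩ :=
    l11_pack p k E M hL5 z hz hgen T hT φ hφ φE hcomm hφE
  obtain ⟨bA, rfl⟩ := (hA b).mpr hb
  obtain ⟨aA, rfl⟩ := (hA a).mpr ha
  refine (hJ _).mp (hL3 p A M φ hφ hφ1 J hJ0 hJφ bA ?_) aA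
  intro v' hv' hu' hge hc'
  have ht' : Triv k v' := l11_triv k M hv' fun c => by
    obtain ⟨cA, hcA⟩ := (hA _).mpr (l11_isInt_const k M (algebraMap E M z) c)
    rw [← hcA]
    exact hge cA
  exact hpos v' hv' ht' hu' hc'

/-- the final contradiction -/
theorem lx_end [IsAlgClosed k] (hL2 : S_L2) (hL4 : S_L4) (hL5 : S_L5) (z : E)
    (hz : Transcendental k z)
    (hgen : ∀ f : E, ∃ a b : k[X], aeval z b ≠ 0 ∧ f * aeval z b = aeval z a)
    (T : M →ₗ[E] E) (hT : T ≠ 0) (φ : M → M) (hφ : IsPinv p φ) (hφ1 : φ 1 = 1) (φE : E → E)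
    (hφE0 : IsPinv p φE) (hcomm : ∀ y, φE (T y) = T (φ y))
    (hφE : ∀ Q : k[X], ∃ Q' : k[X], (∀ i, Q'.coeff i ^ p = Q.coeff (p * i)) ∧
      φE (aeval z Q) = aeval z Q')
    (v : M → ℤ) (hv : IsV v) (htr : Triv k v) (hu : ∃ u, u ≠ 0 ∧ v u = 1)
    (hvc : Compat p φ v) (c : k) (hc : c ≠ 0)
    (hvz : Gt v 0 (algebraMap E M z - algebraMap k M c))
    (h1J : ∀ a : M, ((aeval (algebraMap E M z) : k[X] →ₐ[k] M) : k[X] →+* M).IsIntegralElem a →
      ∃ Q : k[X], T a = aeval z (X * Q)) : False := by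
  obtain ⟨A, iA1, iA2, iA3, iA4, J, hA, hJ0, hJfg, hJφ, hJ⟩ :=
    l11_pack p k E M hL5 z hz hgen T hT φ hφ φE hcomm hφE
  obtain ⟨hzM0, hvz0, hvzi⟩ := lx_res hv htr hc hvz
  have hz0 : z ≠ 0 := by
    rintro rfl
    exact hzM0 (map_zero _)
  have hgeA : ∀ a : A, Ge v 0 (algebraMap A M a) := fun a =>
    l11_ge_int _ hv (fun r => l11_ge_poly hv htr (Or.inr hvz0.ge) r) ((hA _).mp ⟨a, rfl⟩)
  let P : Ideal A :=
    { carrier := {a | Gt v 0 (algebraMap A M a)}
      zero_mem' := Or.inl (map_zero _)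
      add_mem' := by
        intro a b ha hb
        change Gt v 0 (algebraMap A M (a + b))
        rw [map_add]
        exact l11_gt_add hv ha hb
      smul_mem' := by
        intro c a ha
        change Gt v 0 (algebraMap A M (c * a))
        rw [map_mul]
        exact l11_gt_mul hv (hgeA c) ha }
  have hP : ∀ a : A, Gt v 0 (algebraMap A M a) ↔ a ∈ P := fun a => Iff.rfl
  have hPprime : P.IsPrime := by
    constructor
    · rw [Ideal.ne_top_iff_one, ← hP, map_one]
      rintro (h | h)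
      · exact one_ne_zero h
      · rw [l11_val_one hv] at h
        exact lt_irrefl _ h
    · intro a b hab
      rw [← hP, map_mul] at hab
      by_contra hc
      push Not at hc
      rw [← hP, ← hP] at hc
      obtain ⟨ha, hb⟩ := hc
      have ha0 : algebraMap A M a ≠ 0 := fun h => ha (Or.inl h)
      have hb0 : algebraMap A M b ≠ 0 := fun h => hb (Or.inl h)
      have hva : v (algebraMap A M a) ≤ 0 := not_lt.mp fun h => ha (Or.inr h)
      have hvb : v (algebraMap A M b) ≤ 0 := not_lt.mp fun h => hb (Or.inr h)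
      rcases hab with h | h
      · exact mul_ne_zero ha0 hb0 h
      · rw [hv.mul _ _ ha0 hb0] at h
        omega
  -- `z - c` as an element of `A`
  have hzc0 : algebraMap E M z - algebraMap k M c ≠ 0 := by
    intro h
    refine hz ⟨X - C c, X_sub_C_ne_zero c, ?_⟩
    rw [map_sub, aeval_X, aeval_C]
    apply (algebraMap E M).injective
    rw [map_sub, map_zero, ← IsScalarTower.algebraMap_apply]
    exact h
  obtain ⟨zA, hzA⟩ := (hA _).mpr (RingHom.IsIntegralElem.sub _
    (l11_isInt_self k M (algebraMap E M z)) (l11_isInt_const k M (algebraMap E M z) c))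
  have hzP : zA ∈ P := by
    rw [← hP, hzA]
    exact hvz
  have hPbot : P ≠ ⊥ := by
    intro h
    rw [h, Ideal.mem_bot] at hzP
    rw [hzP, map_zero] at hzA
    exact hzc0 hzA.symm
  obtain ⟨w, hw, hwu, hwge, hwgt⟩ := hL2 A M P hPprime hPbot
  have hwv : v = w := by
    refine l11_eqv hw hv hwu hu ?_
    intro f hf
    obtain ⟨s, a, hs, hsa⟩ := (hwge f).mp hf
    have hs1 : ¬ Gt v 0 (algebraMap A M s) := hs
    have hs0 : algebraMap A M s ≠ 0 := fun h => hs1 (Or.inl h)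
    have hvs : v (algebraMap A M s) = 0 := by
      have h1 := (hgeA s).resolve_left hs0
      have h2 : v (algebraMap A M s) ≤ 0 := not_lt.mp fun h => hs1 (Or.inr h)
      omega
    by_cases hf0 : f = 0
    · exact Or.inl hf0
    have ha := hgeA a
    rw [← hsa] at ha
    have h3 := ha.resolve_left (mul_ne_zero hs0 hf0)
    rw [hv.mul _ _ hs0 hf0, hvs, zero_add] at h3
    exact Or.inr h3
  have h1J' : (1 : M) ∈ J := by
    rw [hJ]
    intro a
    rw [one_mul]
    exact h1J _ ((hA _).mp ⟨a, rfl⟩)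
  obtain ⟨y, hy, hyP, hyφ⟩ := hL4 p A M φ hφ hφ1 J hJfg hJφ h1J' P hPprime hPbot v hv hu
    (by rw [hwv]; exact hwge) hP hvc
  rw [hJ] at hy
  push Not at hy
  obtain ⟨a, ha⟩ := hy
  have hzc : aeval z (X - C c : k[X]) ≠ 0 := by
    intro h
    exact hz ⟨X - C c, X_sub_C_ne_zero c, h⟩
  have hzcM : algebraMap E M (aeval z (X - C c : k[X])) =
      algebraMap E M z - algebraMap k M c := by
    rw [map_sub, aeval_X, aeval_C, map_sub, ← IsScalarTower.algebraMap_apply]
  have hTz : ∀ m : M, T ((algebraMap E M z - algebraMap k M c) * m) =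
      aeval z (X - C c : k[X]) * T m := fun m => by
    rw [← hzcM, ← Algebra.smul_def, map_smul, smul_eq_mul]
  -- `(z - c) T (y a) = z P3(z)`
  obtain ⟨P3, hP3⟩ := (hJ _).mp (hyP zA hzP) a
  have h2 : zA • y * algebraMap A M a =
      (algebraMap E M z - algebraMap k M c) * (y * algebraMap A M a) := by
    rw [Algebra.smul_def, hzA, mul_assoc]
  rw [h2, hTz] at hP3
  -- `P3 = b + (X - c) P4`
  obtain ⟨P4, hP4⟩ : ∃ P4 : k[X], P3 = C (P3.eval c) + (X - C c) * P4 := by
    obtain ⟨q, hq⟩ := (dvd_iff_isRoot (p := P3 - C (P3.eval c)) (a := c)).mpr (by simp)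
    exact ⟨q, by rw [← hq]; ring⟩
  have hb0 : P3.eval c ≠ 0 := by
    intro h0
    rw [h0, C_0, zero_add] at hP4
    refine ha P4 ?_
    rw [hP4, show (X * ((X - C c) * P4) : k[X]) = (X - C c) * (X * P4) by ring,
      map_mul (aeval z)] at hP3
    exact mul_left_cancel₀ hzc hP3
  generalize hbdef : P3.eval c = b at hP4 hb0
  -- `φE (b⁻¹ T (y a)) = z / (z - c) + z P6(z)`
  obtain ⟨bA, hbA⟩ := (hA _).mpr (l11_isInt_const k M (algebraMap E M z) b⁻¹)
  obtain ⟨P7, hP7⟩ := (hJ _).mp (hyφ (bA * a)) 1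
  rw [map_one, mul_one, ← hcomm] at hP7
  have h4 : T ((bA * a) • y) = aeval z (C b⁻¹ : k[X]) * T (y * algebraMap A M a) := by
    have h5 : (bA * a) • y = algebraMap E M (algebraMap k E b⁻¹) * (y * algebraMap A M a) := by
      rw [Algebra.smul_def, map_mul, hbA, ← IsScalarTower.algebraMap_apply]
      ring
    rw [h5, ← Algebra.smul_def, map_smul, smul_eq_mul, aeval_C]
  have h5 : T ((bA * a) • y) = ((aeval z (X - C c : k[X]))⁻¹) ^ p *
      aeval z (X * (X - C c) ^ (p - 1)) + aeval z (X * (C b⁻¹ * P4)) := by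
    have hpp : ((aeval z (X - C c : k[X]))⁻¹) ^ p * aeval z (X * (X - C c) ^ (p - 1)) =
        z * (aeval z (X - C c : k[X]))⁻¹ := by
      have hp1 : p - 1 + 1 = p := by have := (Fact.out : p.Prime).one_lt; omega
      have hp2 : ((aeval z (X - C c : k[X]))⁻¹) ^ p =
          ((aeval z (X - C c : k[X]))⁻¹) ^ (p - 1) * (aeval z (X - C c : k[X]))⁻¹ := by
        rw [← pow_succ, hp1]
      have hp3 : ((aeval z (X - C c : k[X]))⁻¹) ^ (p - 1) * (aeval z (X - C c : k[X])) ^ (p - 1) =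
          1 := by
        rw [← mul_pow, inv_mul_cancel₀ hzc, one_pow]
      rw [map_mul (aeval z) X, aeval_X, map_pow (aeval z), hp2]
      linear_combination (z * (aeval z (X - C c : k[X]))⁻¹) * hp3
    rw [hpp]
    have h6 : aeval z (X - C c : k[X]) * T ((bA * a) • y) = z + aeval z (X - C c : k[X]) *
        aeval z (X * (C b⁻¹ * P4)) := by
      have h7 : (C b⁻¹ * (X * P3) : k[X]) = X + (X - C c) * (X * (C b⁻¹ * P4)) := by
        have h8 : (C b⁻¹ * C b : k[X]) = 1 := by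
          rw [← C_mul, inv_mul_cancel₀ hb0, C_1]
        rw [hP4]
        linear_combination X * h8
      have h9 := congrArg (aeval z) h7
      rw [map_mul (aeval z), map_add (aeval z), aeval_X, map_mul (aeval z) (X - C c)] at h9
      rw [h4, mul_left_comm, hP3, h9]
    have h7 : T ((bA * a) • y) = (aeval z (X - C c : k[X]))⁻¹ *
        (aeval z (X - C c : k[X]) * T ((bA * a) • y)) := by
      rw [← mul_assoc, inv_mul_cancel₀ hzc, one_mul]
    rw [h7, h6, mul_add, ← mul_assoc, inv_mul_cancel₀ hzc, one_mul, mul_comm]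
  rw [h5, hφE0.add, hφE0.pow_mul] at hP7
  obtain ⟨Q1, hQ1, hQ1'⟩ := hφE (X * (X - C c) ^ (p - 1))
  obtain ⟨Q2, hQ2, hQ2'⟩ := hφE (X * (C b⁻¹ * P4))
  have hQ1X : Q1 = X := lx_poly p c Q1 hQ1 fun a b hab => frobenius_inj k p hab
  have hQ20 : Q2.coeff 0 = 0 := by
    have := hQ2 0
    rw [mul_zero, mul_coeff_zero, coeff_X_zero, zero_mul] at this
    exact pow_eq_zero_iff (Fact.out : p.Prime).ne_zero |>.mp this
  have hQ2X : Q2 = X * Q2.divX := by
    have := Q2.divX_mul_X_add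
    rw [hQ20, C_0, add_zero] at this
    rw [mul_comm, this]
  rw [hQ1', hQ2', hQ1X, hQ2X, aeval_X, map_mul (aeval z), map_mul (aeval z), aeval_X] at hP7
  have h8 : aeval z ((X - C c) * (P7 - Q2.divX) - 1 : k[X]) = 0 := by
    have h9 : (aeval z (X - C c : k[X]))⁻¹ = aeval z P7 - aeval z Q2.divX := by
      have h10 : z * (aeval z (X - C c : k[X]))⁻¹ = z * (aeval z P7 - aeval z Q2.divX) := by
        linear_combination hP7
      exact mul_left_cancel₀ hz0 h10
    rw [map_sub (aeval (R := k) z) ((X - C c) * (P7 - Q2.divX)) 1, map_mul (aeval z),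
      map_one (aeval z), map_sub (aeval (R := k) z) P7, ← h9, mul_inv_cancel₀ hzc, sub_self]
  have h9 : ((X - C c) * (P7 - Q2.divX) - 1 : k[X]) = 0 := by
    by_contra hne
    exact hz ⟨_, hne, h8⟩
  have h10 := congrArg (Polynomial.eval c) h9
  simp at h10

end

end Pool.Agent.CZLX
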